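import Pool.Agent.Helper10.SQ.Defs

/-! Squarefree decimal palindromes in residue classes: the assembly. -/

set_option autoImplicit false

namespace Pool.Agent.Helper78.SE

open Finset Pool.Agent.Helper10 Pool.Agent.Helper10.SQ

/-- weight of a square divisor `s ^ 2` -/
noncomputable def wS (Z s : ℕ) : ℝ := 1 + (((Icc 1 Z).filter (fun d => d ∣ s)).card : ℝ)

lemma wS_nonneg (Z s : ℕ) : 0 ≤ wS Z s := by unfold wS; positivity

lemma cl_zero (n s : ℕ) : (cl n (s ^ 2) 0 : ℕ) = ((Pal n).filter (fun P => s ^ 2 ∣ P)).card := by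
  unfold cl
  congr 1
  refine Finset.filter_congr fun P _ => ?_
  exact Nat.modEq_zero_iff_dvd

open Classical in
/-- the pointwise inequality -/
def SW3 : Prop := ∀ P Z D : ℕ, 0 < P → ¬ 4 ∣ P → ¬ 25 ∣ P → 1 ≤ Z →
  |(if Squarefree P then (1 : ℝ) else 0) -
      ∑ d ∈ (Icc 1 Z).filter (fun d => d.Coprime 10 ∧ d ^ 2 ∣ P), (ArithmeticFunction.moebius d : ℝ)| ≤
    ∑ s ∈ (Ioc Z D).filter (fun s => s.Coprime 10 ∧ s ^ 2 ∣ P), wS Z s +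
      (if ∃ d : ℕ, D ≤ d ∧ d ^ 2 ∣ P then 1 + (Z : ℝ) else 0)

open Classical in
/-- the Moebius step: the number of squarefree palindromes in a class against the truncated sum -/
theorem moebius_step (h3 : SW3) (n q a Z D : ℕ) (hZ : 1 ≤ Z) :
    |(((Pal n).filter (fun P => Squarefree P ∧ P ≡ a [MOD q])).card : ℝ) -
      ∑ d ∈ (Icc 1 Z).filter (fun d => d.Coprime 10), (ArithmeticFunction.moebius d : ℝ) *
        (((Pal n).filter (fun P => ¬ 4 ∣ P ∧ ¬ 25 ∣ P ∧ P ≡ a [MOD q] ∧ d ^ 2 ∣ P)).card : ℝ)| ≤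
    ∑ s ∈ (Ioc Z D).filter (fun s : ℕ => s.Coprime 10), wS Z s * ((cl n (s ^ 2) 0 : ℕ) : ℝ) +
      (1 + (Z : ℝ)) * (((Pal n).filter (fun P => ∃ d : ℕ, D ≤ d ∧ d ^ 2 ∣ P)).card : ℝ) := by
  set G := (Pal n).filter (fun P => ¬ 4 ∣ P ∧ ¬ 25 ∣ P ∧ P ≡ a [MOD q]) with hG
  have hpos : ∀ P ∈ Pal n, 0 < P := by
    intro P hP
    rcases Nat.eq_zero_or_pos P with h | h
    · exfalso
      subst h
      unfold Pal at hP
      have h1 := (Finset.mem_filter.1 hP).2.1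
      simp at h1
    · exact h
  -- the number as a sum
  have e1 : (((Pal n).filter (fun P => Squarefree P ∧ P ≡ a [MOD q])).card : ℝ) =
      ∑ P ∈ G, (if Squarefree P then (1 : ℝ) else 0) := by
    rw [Finset.sum_boole]
    congr 2
    ext P
    simp only [hG, Finset.mem_filter]
    constructor
    · rintro ⟨h1, h2, h3⟩
      refine ⟨⟨h1, fun h => ?_, fun h => ?_, h3⟩, h2⟩
      · have := h2 2 (by simpa using h)
        revert this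
        decide
      · have := h2 5 (by simpa using h)
        revert this
        decide
    · rintro ⟨⟨h1, _, _, h4⟩, h5⟩
      exact ⟨h1, h5, h4⟩
  -- the truncated sum
  have e2 : ∑ d ∈ (Icc 1 Z).filter (fun d => d.Coprime 10), (ArithmeticFunction.moebius d : ℝ) *
        (((Pal n).filter (fun P => ¬ 4 ∣ P ∧ ¬ 25 ∣ P ∧ P ≡ a [MOD q] ∧ d ^ 2 ∣ P)).card : ℝ) =
      ∑ P ∈ G, ∑ d ∈ (Icc 1 Z).filter (fun d => d.Coprime 10 ∧ d ^ 2 ∣ P),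
        (ArithmeticFunction.moebius d : ℝ) := by
    have h1 : ∀ P, ∑ d ∈ (Icc 1 Z).filter (fun d => d.Coprime 10 ∧ d ^ 2 ∣ P),
        (ArithmeticFunction.moebius d : ℝ) = ∑ d ∈ (Icc 1 Z).filter (fun d => d.Coprime 10),
          (if d ^ 2 ∣ P then (ArithmeticFunction.moebius d : ℝ) else 0) := by
      intro P
      rw [← Finset.filter_filter, Finset.sum_filter (fun d => d ^ 2 ∣ P)]
    rw [Finset.sum_congr rfl fun P _ => h1 P, Finset.sum_comm]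
    refine Finset.sum_congr rfl fun d _ => ?_
    rw [← Finset.sum_filter, Finset.sum_const, nsmul_eq_mul, mul_comm]
    congr 3
    ext P
    simp only [hG, Finset.mem_filter]
    tauto
  rw [e1, e2, ← Finset.sum_sub_distrib]
  refine (Finset.abs_sum_le_sum_abs _ _).trans ?_
  -- the pointwise bound, summed over all palindromes
  have h4 : ∀ P ∈ G, |(if Squarefree P then (1 : ℝ) else 0) -
      ∑ d ∈ (Icc 1 Z).filter (fun d => d.Coprime 10 ∧ d ^ 2 ∣ P), (ArithmeticFunction.moebius d : ℝ)| ≤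
      ∑ s ∈ (Ioc Z D).filter (fun s => s.Coprime 10 ∧ s ^ 2 ∣ P), wS Z s +
        (if ∃ d : ℕ, D ≤ d ∧ d ^ 2 ∣ P then 1 + (Z : ℝ) else 0) := by
    intro P hP
    rw [hG, Finset.mem_filter] at hP
    have := h3 P Z D (hpos P hP.1) hP.2.1 hP.2.2.1 hZ
    convert this using 2
  refine (Finset.sum_le_sum h4).trans ?_
  have h5 : ∀ P ∈ Pal n, P ∉ G → (0 : ℝ) ≤
      ∑ s ∈ (Ioc Z D).filter (fun s => s.Coprime 10 ∧ s ^ 2 ∣ P), wS Z s +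
        (if ∃ d : ℕ, D ≤ d ∧ d ^ 2 ∣ P then 1 + (Z : ℝ) else 0) := by
    intro P _ _
    refine add_nonneg (Finset.sum_nonneg fun s _ => wS_nonneg Z s) ?_
    split_ifs
    · positivity
    · exact le_rfl
  refine (Finset.sum_le_sum_of_subset_of_nonneg (Finset.filter_subset _ _) h5).trans ?_
  rw [Finset.sum_add_distrib]
  refine add_le_add (le_of_eq ?_) (le_of_eq ?_)
  · have h1 : ∀ P, ∑ s ∈ (Ioc Z D).filter (fun s => s.Coprime 10 ∧ s ^ 2 ∣ P), wS Z s =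
        ∑ s ∈ (Ioc Z D).filter (fun s => s.Coprime 10), (if s ^ 2 ∣ P then wS Z s else 0) := by
      intro P
      rw [← Finset.filter_filter, Finset.sum_filter (fun d => d ^ 2 ∣ P)]
    rw [Finset.sum_congr rfl fun P _ => h1 P, Finset.sum_comm]
    refine Finset.sum_congr rfl fun s _ => ?_
    rw [← Finset.sum_filter, Finset.sum_const, nsmul_eq_mul, cl_zero, mul_comm]
  · rw [← Finset.sum_filter, Finset.sum_const, nsmul_eq_mul, mul_comm]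

open Classical in
/-- **The assembly.** -/
theorem assembly
    -- square moduli (helper36)
    (hB : ∃ c' : ℝ, 0 < c' ∧ ∃ n0 : ℕ, ∀ n : ℕ, n0 ≤ n → ∀ D : ℕ,
      (D : ℝ) ≤ (10 : ℝ) ^ ((1 - 1 / 20) * (n : ℝ)) → ∀ a : ℕ → ℕ,
      ∑ d ∈ (Icc 1 D).filter (fun d : ℕ => d.Coprime 10),
        |((cl n (d ^ 2) (a d) : ℕ) : ℝ) - 9 * 10 ^ n / ((d : ℝ) ^ 2)| ≤
          (10 : ℝ) ^ n * Real.exp (-(c' * Real.sqrt n)))
    -- tail (helper44)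
    (hT : ∀ c' : ℝ, 0 < c' → (∃ n0 : ℕ, ∀ n : ℕ, n0 ≤ n → ∀ D : ℕ,
      (D : ℝ) ≤ (10 : ℝ) ^ ((1 - 1 / 20) * (n : ℝ)) → ∀ a : ℕ → ℕ,
      ∑ d ∈ (Icc 1 D).filter (fun d : ℕ => d.Coprime 10),
        |((cl n (d ^ 2) (a d) : ℕ) : ℝ) - 9 * 10 ^ n / ((d : ℝ) ^ 2)| ≤
          (10 : ℝ) ^ n * Real.exp (-(c' * Real.sqrt n))) →
      ∃ n0 : ℕ, ∀ n : ℕ, n0 ≤ n → ∀ Z : ℕ, 1 ≤ Z → (Z : ℝ) ≤ Real.exp (c' / 2 * Real.sqrt n) →
      ∑ s ∈ (Ioc Z (10 ^ (n - n / 20 - 1))).filter (fun s : ℕ => s.Coprime 10),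
        wS Z s * ((cl n (s ^ 2) 0 : ℕ) : ℝ) +
        (1 + (Z : ℝ)) * (((Pal n).filter
          (fun P => ∃ d : ℕ, 10 ^ (n - n / 20 - 1) ≤ d ∧ d ^ 2 ∣ P)).card : ℝ) ≤
        (10 : ℝ) ^ n * (60 / Real.sqrt Z + Real.exp (-(c' / 4 * Real.sqrt n))))
    -- pointwise (helper32)
    (h3 : SW3)
    -- Euler sum (helper32)
    (h5 : ∀ q Z : ℕ, q.Coprime 10 → 1 ≤ Z →
      |(∑ d ∈ (Icc 1 Z).filter (fun d => d.Coprime 10 ∧ d.Coprime q),
        (ArithmeticFunction.moebius d : ℝ) / (d : ℝ) ^ 2) -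
        25 / (3 * Real.pi ^ 2) * ∏ p ∈ q.primeFactors, (1 - 1 / (p : ℝ) ^ 2)⁻¹| ≤ 2 / (Z : ℝ))
    -- main term (helper12)
    (hA : ∃ ρ : ℝ, 0 < ρ ∧ ρ < 1 ∧ ∀ n q a k Z : ℕ, q.Coprime 10 → a.Coprime q →
      q * Z ^ 2 ≤ 10 ^ k → 2 ≤ n →
      |(∑ d ∈ (Icc 1 Z).filter (fun d => d.Coprime 10), (ArithmeticFunction.moebius d : ℝ) *
        (((Pal n).filter (fun P => ¬ 4 ∣ P ∧ ¬ 25 ∣ P ∧ P ≡ a [MOD q] ∧ d ^ 2 ∣ P)).card : ℝ)) -
        34 / 5 * (10 ^ n / q) * ∑ d ∈ (Icc 1 Z).filter (fun d => d.Coprime 10 ∧ d.Coprime q),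
          (ArithmeticFunction.moebius d : ℝ) / (d : ℝ) ^ 2| ≤
        10 ^ n * (100 * (q * Z ^ 3) * ρ ^ ((n - 2) / (2 * k + 3))))
    -- constants (helper75)
    (hC : ∀ ρ c' : ℝ, 0 < ρ → ρ < 1 → 0 < c' → ∃ c1 c : ℝ, 0 < c1 ∧ 0 < c ∧ c1 ≤ c' / 2 ∧
      ∃ n0 : ℕ, ∀ n : ℕ, n0 ≤ n → ∀ q Z : ℕ, 1 ≤ q → (q : ℝ) ≤ Real.exp (c * Real.sqrt n) →
      Z = ⌊Real.exp (c1 * Real.sqrt n)⌋₊ → 1 ≤ Z ∧ ∃ k : ℕ, q * Z ^ 2 ≤ 10 ^ k ∧
      100 * ((q : ℝ) * (Z : ℝ) ^ 3) * ρ ^ ((n - 2) / (2 * k + 3)) + 60 / Real.sqrt Z +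
        Real.exp (-(c' / 4 * Real.sqrt n)) + 14 / ((q : ℝ) * Z) ≤
        Real.exp (-(c * Real.sqrt n)) / q) :
    ∃ c : ℝ, 0 < c ∧ ∃ n0 : ℕ, ∀ n : ℕ, n0 ≤ n → ∀ q a : ℕ, q.Coprime 10 → a.Coprime q →
      (q : ℝ) ≤ Real.exp (c * Real.sqrt n) →
      |(((Pal n).filter (fun P => Squarefree P ∧ P ≡ a [MOD q])).card : ℝ) -
        170 / (3 * Real.pi ^ 2) * (10 ^ n / q) * ∏ p ∈ q.primeFactors, (1 - 1 / (p : ℝ) ^ 2)⁻¹| ≤
        10 ^ n / q * Real.exp (-(c * Real.sqrt n)) := by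
  obtain ⟨c', hc', hB'⟩ := hB
  obtain ⟨n1, hT'⟩ := hT c' hc' hB'
  obtain ⟨ρ, hρ0, hρ1, hA'⟩ := hA
  obtain ⟨c1, c, hc1, hc, hcc, n2, hC'⟩ := hC ρ c' hρ0 hρ1 hc'
  refine ⟨c, hc, n1 + n2 + 2, fun n hn q a hq ha hqc => ?_⟩
  have hq0 : 1 ≤ q := by
    rcases Nat.eq_zero_or_pos q with h | h
    · subst h
      norm_num at hq
    · exact h
  have hqR : (0 : ℝ) < q := by exact_mod_cast hq0
  obtain ⟨Z, hZdef⟩ : ∃ Z : ℕ, Z = ⌊Real.exp (c1 * Real.sqrt n)⌋₊ := ⟨_, rfl⟩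
  obtain ⟨hZ1, k, hk, hsum⟩ := hC' n (by omega) q Z hq0 hqc hZdef
  have hZR : (0 : ℝ) < Z := by exact_mod_cast hZ1
  have hZle : (Z : ℝ) ≤ Real.exp (c' / 2 * Real.sqrt n) := by
    have g1 : (Z : ℝ) ≤ Real.exp (c1 * Real.sqrt n) := by
      rw [hZdef]
      exact Nat.floor_le (Real.exp_pos _).le
    exact g1.trans (Real.exp_le_exp.2 (mul_le_mul_of_nonneg_right hcc (Real.sqrt_nonneg _)))
  have hstep := moebius_step h3 n q a Z (10 ^ (n - n / 20 - 1)) hZ1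
  have htail := hT' n (by omega) Z hZ1 hZle
  have hmain := hA' n q a k Z hq ha hk (by omega)
  have heul := h5 q Z hq hZ1
  set N : ℝ := (((Pal n).filter (fun P => Squarefree P ∧ P ≡ a [MOD q])).card : ℝ) with hN
  set M : ℝ := ∑ d ∈ (Icc 1 Z).filter (fun d => d.Coprime 10), (ArithmeticFunction.moebius d : ℝ) *
        (((Pal n).filter (fun P => ¬ 4 ∣ P ∧ ¬ 25 ∣ P ∧ P ≡ a [MOD q] ∧ d ^ 2 ∣ P)).card : ℝ) with hM
  set E : ℝ := ∑ d ∈ (Icc 1 Z).filter (fun d => d.Coprime 10 ∧ d.Coprime q),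
          (ArithmeticFunction.moebius d : ℝ) / (d : ℝ) ^ 2 with hE
  set F : ℝ := ∏ p ∈ q.primeFactors, (1 - 1 / (p : ℝ) ^ 2)⁻¹ with hF
  set R : ℝ := ρ ^ ((n - 2) / (2 * k + 3)) with hR
  have h10 : (0 : ℝ) < 10 ^ n := by positivity
  -- the four errors
  have s1 : |N - M| ≤ 10 ^ n * (60 / Real.sqrt Z + Real.exp (-(c' / 4 * Real.sqrt n))) := by
    refine le_trans ?_ htail
    convert hstep using 2
  have s2 : |34 / 5 * (10 ^ n / q) * E - 170 / (3 * Real.pi ^ 2) * (10 ^ n / q) * F| ≤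
      10 ^ n * (14 / ((q : ℝ) * Z)) := by
    have e1 : 34 / 5 * (10 ^ n / q) * E - 170 / (3 * Real.pi ^ 2) * (10 ^ n / q) * F =
        34 / 5 * (10 ^ n / q) * (E - 25 / (3 * Real.pi ^ 2) * F) := by
      have hpi : (Real.pi : ℝ) ≠ 0 := Real.pi_ne_zero
      field_simp
      ring
    rw [e1, abs_mul, abs_of_nonneg (by positivity)]
    calc 34 / 5 * (10 ^ n / (q : ℝ)) * |E - 25 / (3 * Real.pi ^ 2) * F|
        ≤ 34 / 5 * (10 ^ n / (q : ℝ)) * (2 / Z) :=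
          mul_le_mul_of_nonneg_left heul (by positivity)
      _ = 10 ^ n * ((68 / 5) / ((q : ℝ) * Z)) := by field_simp; ring
      _ ≤ 10 ^ n * (14 / ((q : ℝ) * Z)) := by
          apply mul_le_mul_of_nonneg_left _ h10.le
          exact div_le_div_of_nonneg_right (by norm_num) (by positivity)
  have s3 : |N - 170 / (3 * Real.pi ^ 2) * (10 ^ n / q) * F| ≤
      |N - M| + |M - 34 / 5 * (10 ^ n / q) * E| +
        |34 / 5 * (10 ^ n / q) * E - 170 / (3 * Real.pi ^ 2) * (10 ^ n / q) * F| := by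
    have := abs_add_three (N - M) (M - 34 / 5 * (10 ^ n / q) * E)
      (34 / 5 * (10 ^ n / q) * E - 170 / (3 * Real.pi ^ 2) * (10 ^ n / q) * F)
    refine le_trans (le_of_eq ?_) this
    congr 1
    ring
  have s4 : (10 : ℝ) ^ n * (100 * ((q : ℝ) * (Z : ℝ) ^ 3) * R + 60 / Real.sqrt Z +
        Real.exp (-(c' / 4 * Real.sqrt n)) + 14 / ((q : ℝ) * Z)) ≤
        10 ^ n * (Real.exp (-(c * Real.sqrt n)) / q) :=
    mul_le_mul_of_nonneg_left hsum h10.le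
  calc |N - 170 / (3 * Real.pi ^ 2) * (10 ^ n / q) * F|
      ≤ 10 ^ n * (60 / Real.sqrt Z + Real.exp (-(c' / 4 * Real.sqrt n))) +
        10 ^ n * (100 * (q * Z ^ 3) * R) + 10 ^ n * (14 / ((q : ℝ) * Z)) := by
        refine s3.trans ?_
        exact add_le_add (add_le_add s1 hmain) s2
    _ = (10 : ℝ) ^ n * (100 * ((q : ℝ) * (Z : ℝ) ^ 3) * R + 60 / Real.sqrt Z +
        Real.exp (-(c' / 4 * Real.sqrt n)) + 14 / ((q : ℝ) * Z)) := by ring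
    _ ≤ 10 ^ n * (Real.exp (-(c * Real.sqrt n)) / q) := s4
    _ = 10 ^ n / q * Real.exp (-(c * Real.sqrt n)) := by ring

end Pool.Agent.Helper78.SE
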