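import Pool.Agent.Helper78.SE.Asm
import Pool.Agent.Helper12.SE.A1
import Pool.Agent.Helper44.SE.Tail
import Pool.Agent.Helper36.PX.B2E
import Pool.Agent.Helper32.SW.Pt
import Pool.Agent.Helper32.SW.Main
import Pool.Agent.Helper75.SE.Const

/-! Squarefree decimal palindromes in residue classes, with the error term. -/

set_option autoImplicit false

namespace Pool.Agent.Helper78.SE

open Finset Pool.Agent.Helper10 Pool.Agent.Helper10.SQ

theorem sw3' : SW3 := by
  intro P Z D hP h4 h25 hZ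
  have h := Pool.Agent.Helper32.SW.sw3 P Z D hP h4 h25 hZ
  unfold wS
  convert h using 2

open Classical in
/-- **Squarefree palindromes in residue classes.** -/
theorem sfc_final : ∃ c : ℝ, 0 < c ∧ ∃ n0 : ℕ, ∀ n : ℕ, n0 ≤ n → ∀ q a : ℕ,
    (q : ℝ) ≤ Real.exp (c * √(n : ℝ)) → q.Coprime 10 → a.Coprime q →
    |(((Pal n).filter (fun N => Squarefree N ∧ N ≡ a [MOD q])).card : ℝ) -
      170 / (3 * Real.pi ^ 2) * (10 ^ n / q) * ∏ p ∈ q.primeFactors, (1 - 1 / (p : ℝ) ^ 2)⁻¹| ≤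
      10 ^ n / q * Real.exp (-(c * √(n : ℝ))) := by
  obtain ⟨c, hc, n0, h⟩ := assembly
    (Pool.Agent.Helper36.PX.sqB2E (1 / 20) (by norm_num))
    (fun c' hc' hB => by
      obtain ⟨n0, h0⟩ := Pool.Agent.Helper44.SE.tail_bound c' hc' hB
      exact ⟨n0, fun n hn Z hZ hZ' => h0 n hn Z hZ hZ'⟩)
    sw3' (fun q Z hq hZ => Pool.Agent.Helper32.SW.sw5 q Z hq hZ)
    (by
      obtain ⟨ρ, h0, h1, h2⟩ := Pool.Agent.Helper12.SE.A1
      refine ⟨ρ, h0, h1, fun n q a k Z hq ha hk hn => ?_⟩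
      have := h2 n q a k Z hq ha hk hn
      convert this using 2)
    (fun ρ c' h0 h1 hc' => Pool.Agent.Helper75.SE.consts ρ c' h0 h1 hc')
  refine ⟨c, hc, n0, fun n hn q a hqc hq ha => ?_⟩
  have := h n hn q a hq ha hqc
  convert this using 2

end Pool.Agent.Helper78.SE
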